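import Pool.Agent.R420.PK.Lem

/-!
# Peak polynomials: piece INT
-/

set_option autoImplicit false

open Polynomial

namespace Pool.Agent.R737.PK

lemma stp_one_eval (P : ℝ[X]) (j : ℕ) (x : ℝ) : (stp P j 1).eval x = 0 := by simp [stp]

lemma stp_pure_eval (m q : ℕ) (hq : 1 ≤ q) :
    (stp 1 0 (m + 1)).eval (q : ℝ) = ((q - 1).choose m : ℝ) - 1 := by
  induction m with
  | zero => simp [stp]
  | succ m ih =>
    have h := stp_succ 1 0 m (q : ℝ)
    rw [ih, binX_eval_nat] at h
    have h1 : (stp 1 0 (m + 1 + 1)).eval (q : ℝ) = (stp 1 0 (m + 2)).eval (q : ℝ) := rfl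
    rw [h1, h]
    obtain ⟨p, rfl⟩ : ∃ p, q = p + 1 := ⟨q - 1, by omega⟩
    have h2 : ((p + 1).choose (0 + m + 1) : ℕ) = p.choose m + p.choose (m + 1) := by
      rw [zero_add, Nat.choose_succ_succ]
    rw [h2]
    simp only [eval_one, Nat.add_sub_cancel]
    push_cast
    ring

theorem stInt (hS : StStep) (hM : StMom) (hR : StReal) (hE : StEval) : StInt := by
  refine ⟨?_, ?_⟩
  · intro j P ρ hj hrep hgood
    have hv : ∀ n : ℕ, P.eval ((j : ℝ) + ((n + 1 : ℕ) : ℝ)) =
      ((n + 1 + j).choose j : ℝ) * (((n : ℝ) + 1) * M ρ n) := val_nat hR hE hrep hgood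
    obtain ⟨m1, m2, m3, -, m5, -⟩ := hM ρ hgood
    have hz : P.eval (j : ℝ) = 0 := rep_zero hrep hgood.anti
    have hs : ∀ g : ℕ, 1 ≤ g → (stp P j g).eval ((j + g : ℕ) : ℝ) = 0 := fun g hg =>
      rep_zero (hS j P ρ hrep hgood.anti g hg) (nxt_anti j g ρ)
    refine ⟨?_, hz, ?_, ?_, ?_⟩
    · intro i hi
      obtain ⟨n, rfl⟩ : ∃ n, i = n + 1 := ⟨i - 1, by omega⟩
      rw [hv n]
      have h1 : 0 < (n + 1 + j).choose j := Nat.choose_pos (by omega)
      have h2 : (0 : ℝ) < ((n + 1 + j).choose j : ℝ) := by exact_mod_cast h1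
      have h3 := m1 n
      positivity
    · -- values between
      intro g
      induction g with
      | zero => intro i h1 _ _; omega
      | succ g ih =>
        intro i h1 h2 h3
        obtain ⟨g', rfl⟩ : ∃ g', g = g' + 1 := ⟨g - 1, by omega⟩
        have h := stp_succ P j g' ((j : ℝ) + (i : ℝ))
        have e : ((j : ℝ) + (i : ℝ)) = ((j + i : ℕ) : ℝ) := by push_cast; ring
        have e0 : (stp P j (g' + 1 + 1)).eval ((j : ℝ) + (i : ℝ))
            = (stp P j (g' + 2)).eval ((j : ℝ) + (i : ℝ)) := rfl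
        rw [e0, h]
        rcases Nat.lt_or_ge i (g' + 1) with h4 | h4
        · rw [ih i (by omega) h2 h4]
          have h5 : (binX (j + g' + 1)).eval ((j : ℝ) + (i : ℝ)) = 0 := by
            rw [e]; exact binX_eval_lt (by omega)
          rw [h5]
          ring
        · obtain rfl : i = g' + 1 := by omega
          have h5 : (binX (j + g' + 1)).eval ((j : ℝ) + ((g' + 1 : ℕ) : ℝ)) = 1 := by
            rw [e]; exact binX_eval_self _
          have h6 : (stp P j (g' + 1)).eval ((j : ℝ) + ((g' + 1 : ℕ) : ℝ)) = 0 := by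
            rw [e]; exact hs (g' + 1) (by omega)
          have h7 : P.eval ((j + g' + 1 : ℕ) : ℝ) = P.eval ((j : ℝ) + ((g' + 1 : ℕ) : ℝ)) := by
            rw [e]; rfl
          rw [h5, h6, h7]
          ring
    · -- value at j
      intro g
      induction g with
      | zero => intro h1; omega
      | succ g ih =>
        intro h1
        obtain ⟨g', rfl⟩ : ∃ g', g = g' + 1 := ⟨g - 1, by omega⟩
        have h := stp_succ P j g' (j : ℝ)
        have e0 : (stp P j (g' + 1 + 1)).eval (j : ℝ) = (stp P j (g' + 2)).eval (j : ℝ) := rfl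
        rw [e0, h, binX_eval_lt (by omega), hz]
        rcases Nat.eq_zero_or_pos g' with h4 | h4
        · subst h4
          have : (stp P j (0 + 1)).eval (j : ℝ) = 0 := stp_one_eval P j _
          rw [this]; ring
        · rw [ih (by omega)]; ring
    · -- the ratio inequality
      intro g hg
      obtain ⟨n, rfl⟩ : ∃ n, g = n + 4 := ⟨g - 4, by omega⟩
      -- i = g - 2 = n + 2
      have e1 : ((j : ℝ) + ((n + 4 : ℕ) : ℝ) - 2) = ((j : ℝ) + (((n + 1) + 1 : ℕ) : ℝ)) := by
        push_cast; ring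
      have e2 : ((j : ℝ) + ((n + 4 : ℕ) : ℝ) - 1) = ((j : ℝ) + (((n + 2) + 1 : ℕ) : ℝ)) := by
        push_cast; ring
      have e3 : ((j : ℝ) + ((n + 4 : ℕ) : ℝ) - 3) = ((j : ℝ) + ((n + 1 : ℕ) : ℝ)) := by
        push_cast; ring
      rw [e1, e2, e3, hv (n + 1), hv (n + 2), hv n]
      set c0 : ℝ := ((n + 1 + j).choose j : ℝ) with hc0
      set c1 : ℝ := (((n + 1) + 1 + j).choose j : ℝ) with hc1
      set c2 : ℝ := (((n + 2) + 1 + j).choose j : ℝ) with hc2
      -- recursion of binomials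
      have k1 : c1 * ((n : ℝ) + 2) = c0 * ((n : ℝ) + 2 + j) := by
        have h := Nat.add_one_mul_choose_eq (n + 1 + j) (n + 1)
        -- (n+1+j+1) * choose (n+1+j) (n+1) = choose (n+1+j+1) (n+2) * (n+2)
        have a1 : (n + 1 + j).choose (n + 1) = (n + 1 + j).choose j :=
          Nat.choose_symm_of_eq_add rfl
        have a2 : (n + 1 + j).succ.choose (n + 1).succ = ((n + 1) + 1 + j).choose j := by
          rw [show (n + 1 + j).succ = (n + 1) + 1 + j by omega]
          exact Nat.choose_symm_of_eq_add rfl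
        rw [a1, a2] at h
        have h' : (((n + 1 + j).succ * (n + 1 + j).choose j : ℕ) : ℝ) =
            ((((n + 1) + 1 + j).choose j * (n + 1).succ : ℕ) : ℝ) := by rw [h]
        push_cast at h'
        rw [hc0, hc1]
        push_cast
        linarith
      have k2 : c2 * ((n : ℝ) + 3) = c1 * ((n : ℝ) + 3 + j) := by
        have h := Nat.add_one_mul_choose_eq (n + 2 + j) (n + 2)
        have a1 : (n + 2 + j).choose (n + 2) = ((n + 1) + 1 + j).choose j := by
          rw [show (n + 1) + 1 + j = n + 2 + j by omega]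
          exact Nat.choose_symm_of_eq_add rfl
        have a2 : (n + 2 + j).succ.choose (n + 2).succ = ((n + 2) + 1 + j).choose j := by
          rw [show (n + 2 + j).succ = (n + 2) + 1 + j by omega]
          exact Nat.choose_symm_of_eq_add rfl
        rw [a1, a2] at h
        have h' : (((n + 2 + j).succ * ((n + 1) + 1 + j).choose j : ℕ) : ℝ) =
            ((((n + 2) + 1 + j).choose j * (n + 2).succ : ℕ) : ℝ) := by rw [h]
        push_cast at h'
        rw [hc1, hc2]
        push_cast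
        linarith
      have p0 : 0 < c0 := by
        rw [hc0]; exact_mod_cast Nat.choose_pos (by omega)
      have hn : (0 : ℝ) ≤ n := Nat.cast_nonneg n
      have hjr : (1 : ℝ) ≤ j := by exact_mod_cast hj
      have q1 : c1 = c0 * ((n : ℝ) + 2 + j) / ((n : ℝ) + 2) := by
        field_simp; linarith
      have q2 : c2 = c0 * ((n : ℝ) + 2 + j) * ((n : ℝ) + 3 + j) / (((n : ℝ) + 2) * ((n : ℝ) + 3)) := by
        have : c2 = c1 * ((n : ℝ) + 3 + j) / ((n : ℝ) + 3) := by field_simp; linarith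
        rw [this, q1]; field_simp
      rw [q1, q2]
      have M0 := m1 n
      have M1 := m1 (n + 1)
      have M2 := m1 (n + 2)
      -- the core inequality
      have core : 3 * ((n : ℝ) + 3) * ((n : ℝ) + 2 + j) * M ρ (n + 1) ^ 2 <
          4 * ((n : ℝ) + 2) * ((n : ℝ) + 3 + j) * (M ρ n * M ρ (n + 2)) := by
        rcases Nat.eq_zero_or_pos n with h0 | h0
        · subst h0
          have t1 : M ρ 1 = M ρ 0 / 2 := by linarith
          simp only [zero_add, Nat.cast_zero] at *
          rw [t1]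
          have t2 : 7 * M ρ 0 * M ρ 0 ≤ 24 * (M ρ 0 * M ρ 2) := by nlinarith
          have t3 : 0 < M ρ 0 * M ρ 0 := mul_pos M0 M0
          have t4 : 0 < (3 + (j : ℝ)) := by linarith
          nlinarith [mul_le_mul_of_nonneg_left t2 t4.le, mul_pos t3 t4]
        · have t1 := m3 n
          have t2 : (1 : ℝ) ≤ n := by exact_mod_cast h0
          have t3 : 0 < M ρ n * M ρ (n + 2) := mul_pos M0 M2
          have t4 : 3 * ((n : ℝ) + 3) * ((n : ℝ) + 2 + j) < 4 * ((n : ℝ) + 2) * ((n : ℝ) + 3 + j) := by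
            nlinarith
          calc 3 * ((n : ℝ) + 3) * ((n : ℝ) + 2 + j) * M ρ (n + 1) ^ 2
              ≤ 3 * ((n : ℝ) + 3) * ((n : ℝ) + 2 + j) * (M ρ n * M ρ (n + 2)) :=
                mul_le_mul_of_nonneg_left t1 (by positivity)
            _ < _ := mul_lt_mul_of_pos_right t4 t3
      have key : 4 * (((n + 4 : ℕ) : ℝ) - 2) ^ 2 *
          (c0 * ((n : ℝ) + 2 + j) * ((n : ℝ) + 3 + j) / (((n : ℝ) + 2) * ((n : ℝ) + 3)) *
            ((((n + 2 : ℕ) : ℝ) + 1) * M ρ (n + 2)) * (c0 * (((n : ℝ) + 1) * M ρ n))) -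
          3 * ((((n + 4 : ℕ) : ℝ) - 1) * (((n + 4 : ℕ) : ℝ) - 3)) *
          (c0 * ((n : ℝ) + 2 + j) / ((n : ℝ) + 2) * ((((n + 1 : ℕ) : ℝ) + 1) * M ρ (n + 1))) ^ 2
          = c0 ^ 2 * ((n : ℝ) + 1) * ((n : ℝ) + 2 + j) *
            (4 * ((n : ℝ) + 2) * ((n : ℝ) + 3 + j) * (M ρ n * M ρ (n + 2)) -
              3 * ((n : ℝ) + 3) * ((n : ℝ) + 2 + j) * M ρ (n + 1) ^ 2) := by
        push_cast
        field_simp
        ring
      have hpos : 0 < c0 ^ 2 * ((n : ℝ) + 1) * ((n : ℝ) + 2 + j) *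
            (4 * ((n : ℝ) + 2) * ((n : ℝ) + 3 + j) * (M ρ n * M ρ (n + 2)) -
              3 * ((n : ℝ) + 3) * ((n : ℝ) + 2 + j) * M ρ (n + 1) ^ 2) := by
        have := sub_pos.mpr core
        positivity
      rw [← key] at hpos
      linarith
  · intro m i h1 h2
    obtain ⟨m', rfl⟩ : ∃ m', m = m' + 1 := ⟨m - 1, by omega⟩
    rw [stp_pure_eval m' i h1, Nat.choose_eq_zero_of_lt (by omega)]
    norm_num

end Pool.Agent.R737.PK
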