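import Pool.Agent.R737.PK.Stm

/-!
# Peak polynomials: common lemmas for the pieces VAL and INT
-/

set_option autoImplicit false

open Polynomial

namespace Pool.Agent.R737.PK

lemma binX_eval (n : ℕ) (x : ℝ) :
    (binX n).eval x = ((n.factorial : ℝ)⁻¹) * ∏ i ∈ Finset.range n, (x - (i : ℝ)) := by
  unfold binX
  rw [eval_mul, eval_C, eval_prod]
  congr 1
  refine Finset.prod_congr rfl fun i _ => ?_
  rw [eval_sub, eval_X, eval_C]

lemma binX_eval_nat (n q : ℕ) : (binX n).eval (q : ℝ) = (q.choose n : ℝ) := by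
  rw [binX_eval, ← descPochhammer_eval_eq_prod_range, descPochhammer_eval_eq_descFactorial,
    Nat.descFactorial_eq_factorial_mul_choose]
  push_cast
  have : (n.factorial : ℝ) ≠ 0 := by positivity
  field_simp

lemma binX_eval_lt {n q : ℕ} (h : q < n) : (binX n).eval (q : ℝ) = 0 := by
  rw [binX_eval_nat, Nat.choose_eq_zero_of_lt h, Nat.cast_zero]

lemma binX_eval_self (n : ℕ) : (binX n).eval (n : ℝ) = 1 := by
  rw [binX_eval_nat, Nat.choose_self, Nat.cast_one]

lemma bin_nat (m n : ℕ) : bin m (n : ℝ) = ((n + m).choose m : ℝ) := by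
  unfold bin
  have h1 : (∏ i ∈ Finset.range m, ((n : ℝ) + i + 1)) = (((n + 1).ascFactorial m : ℕ) : ℝ) := by
    rw [Nat.ascFactorial_eq_prod_range]
    push_cast
    refine Finset.prod_congr rfl fun i _ => ?_
    ring
  rw [h1, Nat.ascFactorial_eq_factorial_mul_choose]
  push_cast
  have : (m.factorial : ℝ) ≠ 0 := by positivity
  field_simp

lemma stp_succ (P : ℝ[X]) (j g : ℕ) (x : ℝ) :
    (stp P j (g + 2)).eval x = P.eval ((j + g + 1 : ℕ) : ℝ) * (binX (j + g + 1)).eval x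
      - 2 * P.eval x - (stp P j (g + 1)).eval x := by
  simp only [stp, eval_sub, eval_mul, eval_C, eval_ofNat]

lemma integral_poly (ρ : ℝ[X]) (m : ℕ) (h : ρ.natDegree < m) :
    (∫ s in (0 : ℝ)..1, ρ.eval s) = ∑ l ∈ Finset.range m, ρ.coeff l / ((l : ℝ) + 1) := by
  have h1 : ∀ s : ℝ, ρ.eval s = ∑ l ∈ Finset.range m, ρ.coeff l * s ^ l := fun s =>
    eval_eq_sum_range' h s
  simp_rw [h1]
  rw [intervalIntegral.integral_finset_sum]
  · refine Finset.sum_congr rfl fun l _ => ?_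
    rw [intervalIntegral.integral_const_mul, integral_pow]
    simp
    ring
  · intro l _
    exact (continuous_const.mul (continuous_pow l)).intervalIntegrable _ _

lemma integral_anti (ρ : ℝ[X]) (ha : ∀ s, ρ.eval (1 - s) = - ρ.eval s) :
    (∫ s in (0 : ℝ)..1, ρ.eval s) = 0 := by
  have h1 : (∫ s in (0 : ℝ)..1, ρ.eval (1 - s)) = ∫ s in (0 : ℝ)..1, ρ.eval s := by
    rw [intervalIntegral.integral_comp_sub_left (fun s => ρ.eval s) 1]
    simp
  simp_rw [ha] at h1
  rw [intervalIntegral.integral_neg] at h1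
  linarith

lemma rep_zero {m : ℕ} {P ρ : ℝ[X]} (h : Rep m P ρ) (ha : ∀ s, ρ.eval (1 - s) = - ρ.eval s) :
    P.eval (m : ℝ) = 0 := by
  have h2 := h.2 0
  rw [add_zero] at h2
  have h3 : ∑ l ∈ Finset.range m, ρ.coeff l * ∏ i ∈ (Finset.range m).erase l, ((0 : ℝ) + i + 1)
      = (m.factorial : ℝ) * ∑ l ∈ Finset.range m, ρ.coeff l / ((l : ℝ) + 1) := by
    rw [Finset.mul_sum]
    refine Finset.sum_congr rfl fun l hl => ?_
    have h4 := Finset.mul_prod_erase (Finset.range m) (fun i : ℕ => ((0 : ℝ) + i + 1)) hl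
    have h5 : ∏ i ∈ Finset.range m, ((0 : ℝ) + (i : ℝ) + 1) = (m.factorial : ℝ) := by
      rw [← Finset.prod_range_add_one_eq_factorial]
      push_cast
      refine Finset.prod_congr rfl fun i _ => ?_
      ring
    rw [h5] at h4
    have h6 : ((l : ℝ) + 1) ≠ 0 := by positivity
    simp only [zero_add] at h4 ⊢
    rw [← h4]
    field_simp
  rw [h3, ← integral_poly ρ m h.1, integral_anti ρ ha, mul_zero] at h2
  have h7 : (m.factorial : ℝ) ≠ 0 := by positivity
  exact (mul_eq_zero.mp h2).resolve_right h7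

lemma nxt_anti (j g : ℕ) (ρ : ℝ[X]) (s : ℝ) : (nxt j ρ g).eval (1 - s) = - (nxt j ρ g).eval s := by
  unfold nxt
  simp only [eval_mul, eval_C, eval_sub, eval_comp, eval_one, eval_X, sub_sub_cancel]
  ring

/-- the values to the right of `m` -/
lemma val_nat (hR : StReal) (hE : StEval) {m : ℕ} {P ρ : ℝ[X]} (h : Rep m P ρ) (hg : Good ρ)
    (n : ℕ) : P.eval ((m : ℝ) + ((n + 1 : ℕ) : ℝ)) =
      ((n + 1 + m).choose m : ℝ) * (((n : ℝ) + 1) * M ρ n) := by
  rw [hE m P ρ h ((n + 1 : ℕ) : ℝ) (by positivity), bin_nat]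
  have h1 := (hR ρ hg).2.2.2 n
  push_cast
  rw [h1]

end Pool.Agent.R737.PK
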