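import Pool.Agent.R420.PK.Lem

/-!
# Peak polynomials: piece VAL
-/

set_option autoImplicit false

open Polynomial

namespace Pool.Agent.R737.PK

lemma chain_succ_eval (P₀ : ℝ[X]) (j₀ k : ℕ) (x : ℝ) :
    (chain P₀ j₀ (k + 1)).eval x = bet P₀ j₀ k * (binX (j₀ + 2 * k + 1)).eval x
      - 2 * (chain P₀ j₀ k).eval x := by
  have h := stp_succ (chain P₀ j₀ k) (j₀ + 2 * k) 0 x
  have h1 : (stp (chain P₀ j₀ k) (j₀ + 2 * k) (0 + 1)).eval x = 0 := by
    simp [stp]
  rw [h1] at h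
  simpa [chain, bet] using h

theorem stVal (hS : StStep) (hG : StGood) (hM : StMom) (hR : StReal) (hE : StEval)
    (hG2 : StGap2) : StVal := by
  intro j₀ P₀ ρ₀ hj₀ hrep hgood
  have c1 : ∀ l, Rep (j₀ + 2 * l) (chain P₀ j₀ l) (chainR ρ₀ j₀ l) ∧ Good (chainR ρ₀ j₀ l) := by
    intro l
    induction l with
    | zero => exact ⟨hrep, hgood⟩
    | succ l ih =>
      exact ⟨hS (j₀ + 2 * l) _ _ ih.1 ih.2.anti 2 (by norm_num),
        hG.1 (j₀ + 2 * l) _ ih.2 2 le_rfl⟩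
  have hb : ∀ l, bet P₀ j₀ l = ((j₀ : ℝ) + 2 * l + 1) * M (chainR ρ₀ j₀ l) 0 := by
    intro l
    have h := val_nat hR hE (c1 l).1 (c1 l).2 0
    have e1 : (((j₀ + 2 * l : ℕ) : ℝ) + ((0 + 1 : ℕ) : ℝ)) = ((j₀ + 2 * l + 1 : ℕ) : ℝ) := by
      push_cast; ring
    rw [e1] at h
    unfold bet
    rw [h]
    have e2 : (0 + 1 + (j₀ + 2 * l)).choose (j₀ + 2 * l) = j₀ + 2 * l + 1 := by
      rw [show 0 + 1 + (j₀ + 2 * l) = (j₀ + 2 * l) + 1 by ring, Nat.choose_succ_self_right]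
    rw [e2]
    push_cast
    ring
  have c2 : ∀ l, 0 < bet P₀ j₀ l := by
    intro l
    rw [hb l]
    have := (hM _ (c1 l).2).1 0
    positivity
  have c3 : ∀ l : ℕ, bet P₀ j₀ (l + 1) = bet P₀ j₀ l *
      (((j₀ : ℝ) + 2 * l + 2) * ((j₀ : ℝ) + 2 * l + 3) * ww (chainR ρ₀ j₀ l)) := by
    intro l
    set j : ℕ := j₀ + 2 * l with hj
    have hjr : (j : ℝ) = (j₀ : ℝ) + 2 * l := by rw [hj]; push_cast; ring
    have h1 : bet P₀ j₀ (l + 1) = (chain P₀ j₀ (l + 1)).eval ((j + 3 : ℕ) : ℝ) := by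
      unfold bet
      congr 2
    have h2 := chain_succ_eval P₀ j₀ l ((j + 3 : ℕ) : ℝ)
    rw [← hj] at h2
    rw [binX_eval_nat] at h2
    have h3 := val_nat hR hE (c1 l).1 (c1 l).2 2
    rw [← hj] at h3
    have e1 : ((j : ℝ) + ((2 + 1 : ℕ) : ℝ)) = ((j + 3 : ℕ) : ℝ) := by push_cast; ring
    rw [e1] at h3
    rw [h3] at h2
    have k1 : (((j + 3).choose (j + 1) : ℕ) : ℝ) = ((j : ℝ) + 3) * (j + 2) / 2 := by
      rw [show (j + 3).choose (j + 1) = (j + 3).choose 2 from by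
        rw [← Nat.choose_symm_of_eq_add]; omega]
      rw [Nat.cast_choose_two]
      push_cast
      ring
    have k2 : (((2 + 1 + j).choose j : ℕ) : ℝ) = ((j : ℝ) + 1) * (j + 2) * (j + 3) / 6 := by
      have h5 : (2 + 1 + j).choose j = (j + 3).choose 3 := by
        rw [show 2 + 1 + j = j + 3 by ring, ← Nat.choose_symm_of_eq_add]; omega
      rw [h5]
      have h6 := Nat.descFactorial_eq_factorial_mul_choose (j + 3) 3
      have h7 : (j + 3).descFactorial 3 = (j + 3) * (j + 2) * (j + 1) := by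
        simp [Nat.descFactorial]
        ring
      rw [h7] at h6
      have h8 : (((j + 3) * (j + 2) * (j + 1) : ℕ) : ℝ) = ((Nat.factorial 3 * (j + 3).choose 3 : ℕ) : ℝ) := by
        rw [h6]
      have h9 : Nat.factorial 3 = 6 := rfl
      rw [h9] at h8
      push_cast at h8
      linarith
    rw [k1, k2] at h2
    rw [h1, h2, hb l]
    obtain ⟨m1, m2, -, -, -, -⟩ := hM _ (c1 l).2
    have m0 := m1 0
    unfold ww
    have m0' : M (chainR ρ₀ j₀ l) 0 ≠ 0 := m0.ne'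
    rw [← hjr]
    have m1' : M (chainR ρ₀ j₀ l) 1 = M (chainR ρ₀ j₀ l) 0 / 2 := by linarith
    rw [m1']
    push_cast
    field_simp
    ring
  have c4 : ∀ l, 0 < ww (chainR ρ₀ j₀ l) ∧ ww (chainR ρ₀ j₀ l) ≤ 5 / 24 := by
    intro l
    obtain ⟨m1, m2, -, -, m3, m4⟩ := hM _ (c1 l).2
    have m0 := m1 0
    unfold ww
    constructor
    · apply div_pos _ m0
      linarith
    · rw [div_le_iff₀ m0]
      linarith
  have c5 : ∀ l, 1 / 5 ≤ ww (chainR ρ₀ j₀ (l + 1)) := by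
    intro l
    obtain ⟨m1, m2, -, -, -, -⟩ := hM _ (c1 (l + 1)).2
    have m0 := m1 0
    have h := hG2 (j₀ + 2 * l) (chainR ρ₀ j₀ l) (c1 l).2
    change 10 * M (chainR ρ₀ j₀ (l + 1)) 2 ≤ 3 * M (chainR ρ₀ j₀ (l + 1)) 0 at h
    unfold ww
    rw [le_div_iff₀ m0]
    linarith
  have c7 : ∀ k i : ℕ, i ≤ k → (chain P₀ j₀ k).eval ((j₀ : ℝ) + 2 * i) = 0 := by
    intro k
    induction k with
    | zero =>
      intro i hi
      obtain rfl : i = 0 := by omega
      have h := rep_zero (c1 0).1 (c1 0).2.anti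
      simpa using h
    | succ k ih =>
      intro i hi
      rcases Nat.lt_or_ge i (k + 1) with h | h
      · rw [chain_succ_eval, ih i (by omega)]
        have e : ((j₀ : ℝ) + 2 * i) = ((j₀ + 2 * i : ℕ) : ℝ) := by push_cast; ring
        rw [e, binX_eval_lt (by omega)]
        ring
      · obtain rfl : i = k + 1 := by omega
        have h := rep_zero (c1 (k + 1)).1 (c1 (k + 1)).2.anti
        push_cast at h ⊢
        exact h
  have c6 : ∀ k i : ℕ, i < k → (chain P₀ j₀ k).eval ((j₀ : ℝ) + 2 * k - 1 - 2 * i) =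
      (-1) ^ (i + 1) * 2 ^ i * bet P₀ j₀ (k - i - 1) := by
    intro k
    induction k with
    | zero => intro i hi; omega
    | succ k ih =>
      intro i hi
      rcases Nat.eq_zero_or_pos i with h | h
      · subst h
        rw [chain_succ_eval]
        have e : ((j₀ : ℝ) + 2 * ((k + 1 : ℕ) : ℝ) - 1 - 2 * ((0 : ℕ) : ℝ))
            = ((j₀ + 2 * k + 1 : ℕ) : ℝ) := by push_cast; ring
        rw [e, binX_eval_self]
        have e2 : (chain P₀ j₀ k).eval ((j₀ + 2 * k + 1 : ℕ) : ℝ) = bet P₀ j₀ k := rfl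
        rw [e2]
        simp
        ring
      · obtain ⟨i', rfl⟩ : ∃ i', i = i' + 1 := ⟨i - 1, by omega⟩
        rw [chain_succ_eval]
        have e : ((j₀ : ℝ) + 2 * ((k + 1 : ℕ) : ℝ) - 1 - 2 * ((i' + 1 : ℕ) : ℝ))
            = ((j₀ : ℝ) + 2 * (k : ℝ) - 1 - 2 * (i' : ℝ)) := by push_cast; ring
        rw [e, ih i' (by omega)]
        have e3 : ((j₀ : ℝ) + 2 * (k : ℝ) - 1 - 2 * (i' : ℝ)) = ((j₀ + 2 * k - 1 - 2 * i' : ℕ) : ℝ) := by
          rw [Nat.cast_sub (by omega), Nat.cast_sub (by omega)]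
          push_cast
          ring
        rw [e3, binX_eval_lt (by omega)]
        have e4 : k + 1 - (i' + 1) - 1 = k - i' - 1 := by omega
        rw [e4]
        ring
  refine ⟨c1, c2, c3, c4, c5, c6, c7, ?_⟩
  intro k
  induction k with
  | zero => intro n _; simp [chain]
  | succ k ih =>
    intro n hn
    rw [chain_succ_eval, ih n hn, binX_eval_lt (by omega)]
    ring

end Pool.Agent.R737.PK
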